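import Pool.Agent.Helper41.PS.Goals

/-!
# Project PS (MP_74f661_nt): packet AV1, averages of `ww`
-/

set_option autoImplicit false

open Finset

namespace Pool.Agent.Helper22.PS.AV1

open Pool.Agent.Helper41.PS

theorem pow_le (K u : ℝ) (hK : 0 ≤ K) (h0 : 0 ≤ u) (h1 : u ≤ 1) (J : ℕ) :
    (1 + K * u) ^ J ≤ 1 + ((K + 1) ^ J - 1) * u := by
  induction J with
  | zero => simp
  | succ J ih =>
    have hM : 0 ≤ (K + 1) ^ J - 1 := by
      have : (1 : ℝ) ≤ (K + 1) ^ J := one_le_pow₀ (by linarith)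
      linarith
    have hb : 0 ≤ 1 + K * u := by positivity
    have h2 := mul_le_mul_of_nonneg_right ih hb
    rw [← pow_succ] at h2
    refine h2.trans ?_
    have h3 : ((K + 1) ^ J - 1) * K * (u * u) ≤ ((K + 1) ^ J - 1) * K * u := by
      apply mul_le_mul_of_nonneg_left _ (mul_nonneg hM hK)
      nlinarith
    rw [pow_succ (K + 1) J]
    nlinarith

theorem part1 (K J t : ℕ) : ww K t ^ J ≤ ww ((K + 1) ^ J) t := by
  rw [ww, ww, ← Finset.prod_pow]
  apply Finset.prod_le_prod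
  · intro p _
    positivity
  · intro p hp
    have hp1 : (1 : ℝ) ≤ p := by
      have := (Nat.prime_of_mem_primeFactors hp).one_lt.le
      exact_mod_cast this
    have hu1 : (p : ℝ)⁻¹ ≤ 1 := inv_le_one_of_one_le₀ hp1
    have hu0 : 0 ≤ (p : ℝ)⁻¹ := by positivity
    have h := pow_le (K : ℝ) (p : ℝ)⁻¹ (by positivity) hu0 hu1 J
    rw [div_eq_mul_inv, div_eq_mul_inv]
    refine h.trans ?_
    push_cast
    nlinarith

theorem sumsq (N : ℕ) (P : Finset ℕ) (hP : P ⊆ Icc 1 N) :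
    ∑ p ∈ P, ((p : ℝ) ^ 2)⁻¹ ≤ 2 := by
  have h1 : P ⊆ Ioo 0 (N + 1) := by
    intro p hp
    have := Finset.mem_Icc.mp (hP hp)
    rw [Finset.mem_Ioo]
    omega
  have h2 : ∑ p ∈ P, ((p : ℝ) ^ 2)⁻¹ ≤ ∑ p ∈ Ioo 0 (N + 1), ((p : ℝ) ^ 2)⁻¹ :=
    Finset.sum_le_sum_of_subset_of_nonneg h1 (fun p _ _ => by positivity)
  have h3 := sum_Ioo_inv_sq_le (α := ℝ) 0 (N + 1)
  simp only [Nat.cast_zero, zero_add, div_one] at h3
  exact h2.trans h3

theorem count (N : ℕ) (B : Finset ℕ) :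
    (((Icc 1 N).filter (fun t => B ⊆ t.primeFactors)).card : ℝ) ≤ N / ((∏ p ∈ B, p : ℕ) : ℝ) := by
  have h1 : (Icc 1 N).filter (fun t => B ⊆ t.primeFactors) ⊆
      (Ioc 0 N).filter (fun t => (∏ p ∈ B, p) ∣ t) := by
    intro t ht
    rw [Finset.mem_filter, Finset.mem_Icc] at ht
    rw [Finset.mem_filter, Finset.mem_Ioc]
    exact ⟨by omega, (Finset.prod_dvd_prod_of_subset _ _ _ ht.2).trans
      (Nat.prod_primeFactors_dvd t)⟩
  have h2 := Finset.card_le_card h1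
  rw [Nat.Ioc_filter_dvd_card_eq_div] at h2
  have h3 : (((Icc 1 N).filter (fun t => B ⊆ t.primeFactors)).card : ℝ) ≤
      ((N / (∏ p ∈ B, p) : ℕ) : ℝ) := by exact_mod_cast h2
  exact h3.trans Nat.cast_div_le

theorem part2 (K N : ℕ) : ∑ t ∈ Icc 1 N, ww K t ≤ Real.exp (2 * K) * N := by
  classical
  set P := (Icc 1 N).filter Nat.Prime with hP
  have h1 : ∀ t ∈ Icc 1 N, ww K t =
      ∑ B ∈ P.powerset, if B ⊆ t.primeFactors then ∏ p ∈ B, ((K : ℝ) / p) else 0 := by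
    intro t ht
    rw [ww, Finset.prod_one_add, ← Finset.sum_filter]
    apply Finset.sum_congr _ (fun _ _ => rfl)
    ext B
    rw [Finset.mem_filter, Finset.mem_powerset, Finset.mem_powerset]
    constructor
    · intro h
      refine ⟨fun p hp => ?_, h⟩
      have hp' := h hp
      rw [hP, Finset.mem_filter, Finset.mem_Icc]
      have ht' := Finset.mem_Icc.mp ht
      refine ⟨⟨(Nat.prime_of_mem_primeFactors hp').one_lt.le, ?_⟩,
        Nat.prime_of_mem_primeFactors hp'⟩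
      exact (Nat.le_of_dvd (by omega) (Nat.dvd_of_mem_primeFactors hp')).trans ht'.2
    · exact fun h => h.2
  rw [Finset.sum_congr rfl h1, Finset.sum_comm]
  have h2 : ∀ B ∈ P.powerset, ∑ t ∈ Icc 1 N,
      (if B ⊆ t.primeFactors then ∏ p ∈ B, ((K : ℝ) / p) else 0) ≤
      (N : ℝ) * ∏ p ∈ B, ((K : ℝ) * ((p : ℝ) ^ 2)⁻¹) := by
    intro B _
    rw [← Finset.sum_filter, Finset.sum_const, nsmul_eq_mul]
    have h0 : 0 ≤ ∏ p ∈ B, ((K : ℝ) / p) := Finset.prod_nonneg (fun p _ => by positivity)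
    refine (mul_le_mul_of_nonneg_right (count N B) h0).trans (le_of_eq ?_)
    rw [div_mul_eq_mul_div, mul_div_assoc]
    congr 1
    rw [Nat.cast_prod, ← Finset.prod_div_distrib]
    apply Finset.prod_congr rfl
    intro p _
    rw [div_div, div_eq_mul_inv, sq]
  refine (Finset.sum_le_sum h2).trans ?_
  rw [← Finset.mul_sum, ← Finset.prod_one_add, mul_comm]
  apply mul_le_mul_of_nonneg_right _ (Nat.cast_nonneg N)
  have h3 : ∏ p ∈ P, (1 + (K : ℝ) * ((p : ℝ) ^ 2)⁻¹) ≤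
      ∏ p ∈ P, Real.exp ((K : ℝ) * ((p : ℝ) ^ 2)⁻¹) := by
    apply Finset.prod_le_prod
    · intro p _
      positivity
    · intro p _
      have := Real.add_one_le_exp ((K : ℝ) * ((p : ℝ) ^ 2)⁻¹)
      linarith
  refine h3.trans ?_
  rw [← Real.exp_sum, ← Finset.mul_sum, Real.exp_le_exp, mul_comm 2]
  exact mul_le_mul_of_nonneg_left (sumsq N P (Finset.filter_subset _ _)) (Nat.cast_nonneg K)

theorem t : StmtAV1 := by
  refine ⟨part1, fun K => ⟨Real.exp (2 * K), Real.one_le_exp (by positivity), fun N => part2 K N⟩⟩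

end Pool.Agent.Helper22.PS.AV1
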